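import Pool.Agent.X189.BS.Stm

/-! Part BS_G: the crossings are the inversions; validity of the restrictions. -/

set_option autoImplicit false

namespace Pool.Agent.X269.BS

open Equiv Pool.Agent.X189.BS

theorem wprod_append {n : ℕ} (R S : List (Fin n)) : wprod (R ++ S) = wprod R * wprod S := by
  simp [wprod]

theorem wprod_cons {n : ℕ} (i : Fin n) (S : List (Fin n)) : wprod (i :: S) = sg i * wprod S := by
  simp [wprod]

theorem wprod_nil {n : ℕ} : wprod ([] : List (Fin n)) = 1 := rfl

theorem labs_append {n : ℕ} (u : Perm (Fin (n + 1))) (R S : List (Fin n)) :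
    labs u (R ++ S) = labs u R ++ labs (u * wprod R) S := by
  induction R generalizing u with
  | nil => simp [labs, wprod_nil]
  | cons i R ih =>
    rw [List.cons_append, labs, labs, ih, wprod_cons, List.cons_append, mul_assoc]

theorem asc_append {n : ℕ} (u : Perm (Fin (n + 1))) (R S : List (Fin n)) :
    Asc u (R ++ S) ↔ Asc u R ∧ Asc (u * wprod R) S := by
  induction R generalizing u with
  | nil => simp [Asc, wprod_nil]
  | cons i R ih =>
    rw [List.cons_append, Asc, Asc, ih, wprod_cons, ← mul_assoc, and_assoc]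

theorem labs_split {n : ℕ} (u : Perm (Fin (n + 1))) (R : List (Fin n))
    (L1 : List (Fin (n + 1) × Fin (n + 1))) (e : Fin (n + 1) × Fin (n + 1))
    (L2 : List (Fin (n + 1) × Fin (n + 1))) (h : labs u R = L1 ++ e :: L2) :
    ∃ (R1 : List (Fin n)) (i : Fin n) (R2 : List (Fin n)), R = R1 ++ i :: R2 ∧ L1 = labs u R1 ∧
      e = ((u * wprod R1) i.castSucc, (u * wprod R1) i.succ) := by
  induction R generalizing u L1 with
  | nil => simp [labs] at h
  | cons i R ih =>
    rw [labs] at h
    cases L1 with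
    | nil =>
      rw [List.nil_append] at h
      injection h with h1 h2
      exact ⟨[], i, R, rfl, rfl, by rw [wprod_nil, mul_one]; exact h1.symm⟩
    | cons f L1 =>
      rw [List.cons_append] at h
      injection h with h1 h2
      obtain ⟨R1, j, R2, h3, h4, h5⟩ := ih _ _ h2
      refine ⟨i :: R1, j, R2, by rw [h3]; rfl, ?_, ?_⟩
      · rw [labs, ← h4, h1]
      · rw [h5, wprod_cons, mul_assoc]

theorem sg_lt {n : ℕ} (i : Fin n) (p q : Fin (n + 1)) (hpq : p ≠ q) :
    sg i p < sg i q ↔ (p < q ∧ ¬ (p = i.castSucc ∧ q = i.succ)) ∨ (p = i.succ ∧ q = i.castSucc) := by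
  unfold sg
  rw [swap_apply_def, swap_apply_def]
  simp only [Fin.ext_iff, ne_eq, Fin.lt_def, Fin.val_castSucc, Fin.val_succ] at *
  split_ifs <;> (try simp only [Fin.val_castSucc, Fin.val_succ] at *) <;> omega

theorem mem_labs {n : ℕ} (R : List (Fin n)) (hR : Asc 1 R) (x y : Fin (n + 1)) :
    (x, y) ∈ labs 1 R ↔ x < y ∧ (wprod R).symm y < (wprod R).symm x := by
  induction R using List.reverseRecOn with
  | nil =>
    simp only [labs, List.not_mem_nil, wprod_nil, false_iff, not_and, not_lt]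
    intro h
    exact h.le
  | append_singleton R i ih =>
    rw [asc_append] at hR
    obtain ⟨h1, h2⟩ := hR
    rw [one_mul] at h2
    have h3 : (wprod R) i.castSucc < (wprod R) i.succ := h2.1
    rw [labs_append, List.mem_append, ih h1, one_mul]
    have h4 : labs (wprod R) [i] = [((wprod R) i.castSucc, (wprod R) i.succ)] := rfl
    rw [h4, List.mem_singleton]
    have h5 : ∀ z, (wprod (R ++ [i])).symm z = sg i ((wprod R).symm z) := by
      intro z
      rw [wprod_append]
      have : wprod [i] = sg i := by simp [wprod]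
      rw [this, Equiv.symm_apply_eq, Perm.mul_apply]
      have h6 : sg i (sg i ((wprod R).symm z)) = (wprod R).symm z := by
        unfold sg
        rw [swap_apply_self]
      rw [h6, Equiv.apply_symm_apply]
    rw [h5, h5]
    have hx : ∀ z k, z = (wprod R) k ↔ (wprod R).symm z = k := fun z k =>
      ⟨fun h => by rw [h, Equiv.symm_apply_apply], fun h => by rw [← h, Equiv.apply_symm_apply]⟩
    rw [Prod.mk.injEq, hx, hx]
    by_cases hxy : x = y
    · subst hxy
      simp only [lt_irrefl, false_and, false_or, iff_false, not_and]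
      intro h7 h8
      rw [h7] at h8
      exact absurd h8 (ne_of_lt Fin.castSucc_lt_succ)
    · have hne : (wprod R).symm y ≠ (wprod R).symm x := fun h =>
        hxy ((wprod R).symm.injective h).symm
      rw [sg_lt i _ _ hne]
      constructor
      · rintro (⟨h6, h7⟩ | ⟨h6, h7⟩)
        · refine ⟨h6, Or.inl ⟨h7, ?_⟩⟩
          rintro ⟨h8, h9⟩
          rw [← hx] at h8 h9
          rw [h8, h9] at h6
          exact absurd h6 (not_lt.2 h3.le)
        · refine ⟨?_, Or.inr ⟨h7, h6⟩⟩
          rw [← hx] at h6 h7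
          rw [h6, h7]
          exact h3
      · rintro ⟨h6, ⟨h7, h8⟩ | ⟨h7, h8⟩⟩
        · exact Or.inl ⟨h6, h7⟩
        · exact Or.inr ⟨h8, h7⟩

theorem t_G : S_G := by
  intro n R hR
  refine ⟨mem_labs R hR, ?_⟩
  intro a c P e S h
  rw [res] at h
  obtain ⟨L1, L', h1, h2, h3⟩ := List.filter_eq_append_iff.1 h
  obtain ⟨M1, M2, h4, h5, h6, h7⟩ := List.filter_eq_cons_iff.1 h3
  subst h4
  have hdec : labs 1 R = (L1 ++ M1) ++ e :: M2 := by rw [h1, List.append_assoc]
  obtain ⟨R1, i, R2, hR1, hL1, he⟩ := labs_split _ _ _ _ _ hdec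
  rw [one_mul] at he
  rw [hR1, asc_append, one_mul] at hR
  obtain ⟨hA1, hA2⟩ := hR
  have hlt : (wprod R1) i.castSucc < (wprod R1) i.succ := hA2.1
  have hP : ∀ p, p ∈ P ↔ (p ∈ labs 1 R1 ∧ a ≤ p.1 ∧ p.2 ≤ c) := by
    intro p
    rw [← hL1, ← h2, List.mem_append, List.mem_filter, decide_eq_true_eq]
    constructor
    · rintro ⟨h8, h9⟩
      exact ⟨Or.inl h8, h9⟩
    · rintro ⟨h8 | h8, h9⟩
      · exact ⟨h8, h9⟩
      · exact absurd (decide_eq_true h9) (h5 p h8)
  have he6 : a ≤ e.1 ∧ e.2 ≤ c := by simpa using h6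
  have e1 : e.1 = (wprod R1) i.castSucc := by rw [he]
  have e2 : e.2 = (wprod R1) i.succ := by rw [he]
  have s1 : (wprod R1).symm e.1 = i.castSucc := by rw [e1, Equiv.symm_apply_apply]
  have s2 : (wprod R1).symm e.2 = i.succ := by rw [e2, Equiv.symm_apply_apply]
  have h12 : e.1 < e.2 := by rw [e1, e2]; exact hlt
  have hn1 : ∀ z, z ≠ e.1 → (wprod R1).symm z ≠ i.castSucc := fun z hz h => hz (by
    rw [← s1] at h
    exact (wprod R1).symm.injective h)
  have hn2 : ∀ z, z ≠ e.2 → (wprod R1).symm z ≠ i.succ := fun z hz h => hz (by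
    rw [← s2] at h
    exact (wprod R1).symm.injective h)
  refine ⟨he6.1, h12, he6.2, ?_, ?_, ?_, ?_⟩
  · intro hm
    have h8 := ((hP e).1 hm).1
    have h9 := ((mem_labs R1 hA1 e.1 e.2).1 h8).2
    rw [s1, s2] at h9
    exact absurd h9 (not_lt.2 (Fin.castSucc_lt_succ).le)
  · intro z hz hzc
    rw [hP, hP, mem_labs R1 hA1, mem_labs R1 hA1, s1, s2]
    have m1 := hn1 z (ne_of_gt (h12.trans hz))
    have hz1 : e.1 < z := h12.trans hz
    have ha2 : a ≤ e.2 := he6.1.trans h12.le
    simp only [hz, hz1, hzc, he6.1, ha2, true_and, and_true]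
    simp only [ne_eq, Fin.ext_iff, Fin.lt_def, Fin.val_castSucc, Fin.val_succ] at m1 ⊢
    omega
  · intro z haz hz
    rw [hP, hP, mem_labs R1 hA1, mem_labs R1 hA1, s1, s2]
    have m2 := hn2 z (ne_of_lt (hz.trans h12))
    have hz2 : z < e.2 := hz.trans h12
    have hc1 : e.1 ≤ c := h12.le.trans he6.2
    simp only [hz, hz2, haz, he6.2, hc1, true_and, and_true]
    simp only [ne_eq, Fin.ext_iff, Fin.lt_def, Fin.val_castSucc, Fin.val_succ] at m2 ⊢
    omega
  · intro z hz1 hz2
    rw [hP, hP, mem_labs R1 hA1, mem_labs R1 hA1, s1, s2]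
    have m1 := hn1 z (ne_of_gt hz1)
    have m2 := hn2 z (ne_of_lt hz2)
    have hzc : z ≤ c := hz2.le.trans he6.2
    have haz : a ≤ z := he6.1.trans hz1.le
    simp only [hz1, hz2, hzc, haz, he6.1, he6.2, true_and, and_true]
    simp only [ne_eq, Fin.ext_iff, Fin.lt_def, Fin.val_castSucc, Fin.val_succ] at m1 m2 ⊢
    omega

end Pool.Agent.X269.BS
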